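import Pool.Agent.H83.WeakLind

set_option autoImplicit false

namespace Pool.Agent.Results.MP_b47357_gt.NotWeaklyAlster

universe u v

/-- weakly Lindelof -/
def WeaklyLindelof (X : Type v) [TopologicalSpace X] : Prop :=
  ∀ 𝒰 : Set (Set X), (∀ U ∈ 𝒰, IsOpen U) → ⋃₀ 𝒰 = Set.univ →
    ∃ 𝒱 ⊆ 𝒰, 𝒱.Countable ∧ Dense (⋃₀ 𝒱)

/-- weakly Alster -/
def WeaklyAlster (X : Type) [TopologicalSpace X] : Prop :=
  ∀ 𝒰 : Set (Set X), (∀ U ∈ 𝒰, IsGδ U) → Set.univ ∉ 𝒰 →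
    (∀ C : Set X, IsCompact C → ∃ U ∈ 𝒰, C ⊆ U) →
    ∃ 𝒱 ⊆ 𝒰, 𝒱.Countable ∧ Dense (⋃₀ 𝒱)

theorem result : ∃ (X : Type) (_ : TopologicalSpace X), T35Space X ∧
    (∀ (Y : Type u) [TopologicalSpace Y], WeaklyLindelof Y → WeaklyLindelof (X × Y)) ∧
    ¬ WeaklyAlster X := by
  obtain ⟨ψ, hψ⟩ := Pool.Agent.H83.WeakLind.exists_psi
  have hX := Pool.Agent.H83.WeakLind.dense_X hψ
  refine ⟨Pool.Agent.H83.WeakLind.X ψ, inferInstance, inferInstance,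
    fun Y _ hY => Pool.Agent.H83.WeakLind.prod_weak hX hY, fun h => ?_⟩
  obtain ⟨𝒱, h1, h2, h3⟩ := h {C | IsCompact C}
    (fun _ hC => Pool.Agent.H83.WeakLind.compact_gdelta hC)
    (fun hu => Pool.Agent.H83.WeakLind.not_dense hX (𝒱 := {Set.univ}) (by simpa using hu)
      (Set.countable_singleton _) (by simp))
    (fun C hC => ⟨C, hC, Set.Subset.rfl⟩)
  exact Pool.Agent.H83.WeakLind.not_dense hX h1 h2 h3

end Pool.Agent.Results.MP_b47357_gt.NotWeaklyAlster
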